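import Pool.Agent.H98.KS.Targets1

/-!
# Measure of the set of points near rationals with small denominator (module MS of MP_ff41bc_an)
-/

set_option autoImplicit false

open scoped BigOperators
open MeasureTheory

noncomputable section

namespace Pool.Agent.H48.KS

open Pool.Agent.H98.KS

theorem ms_eq (Qm : ℕ) (η : ℝ) : T1 Qm η = Set.Icc 0 1 ∩
    ⋃ Q ∈ Finset.Icc 1 Qm, ⋃ a ∈ Finset.range (Q + 1),
      Set.Icc (((a : ℝ) - η) / Q) (((a : ℝ) + η) / Q) := by
  ext τ
  unfold T1 dn
  simp only [Set.mem_ofPred_eq, Set.mem_inter_iff, Set.mem_Icc, Set.mem_iUnion, Finset.mem_Icc,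
    Finset.mem_range, exists_prop]
  constructor
  · rintro ⟨h0, h1, Q, hQ1, hQm, hd⟩
    refine ⟨⟨h0, h1⟩, Q, ⟨hQ1, hQm⟩, (round ((Q : ℝ) * τ)).toNat, ?_, ?_⟩
    · have hQ : (0 : ℝ) < Q := by exact_mod_cast hQ1
      have h2 : (Q : ℝ) * τ ≤ Q := by nlinarith
      have h3 : (round ((Q : ℝ) * τ) : ℤ) ≤ Q := by
        rw [round_eq]
        have : (⌊(Q : ℝ) * τ + 1 / 2⌋ : ℤ) < (Q : ℤ) + 1 := by
          rw [Int.floor_lt]
          push_cast
          linarith
        omega
      omega
    · have hQ : (0 : ℝ) < Q := by exact_mod_cast hQ1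
      have h2 : 0 ≤ (Q : ℝ) * τ := by positivity
      have h3 : 0 ≤ round ((Q : ℝ) * τ) := by
        rw [round_eq]
        apply Int.floor_nonneg.mpr
        linarith
      have h4 : (((round ((Q : ℝ) * τ)).toNat : ℕ) : ℝ) = ((round ((Q : ℝ) * τ) : ℤ) : ℝ) := by
        have : (((round ((Q : ℝ) * τ)).toNat : ℕ) : ℤ) = round ((Q : ℝ) * τ) := Int.toNat_of_nonneg h3
        exact_mod_cast this
      rw [h4, div_le_iff₀ hQ, le_div_iff₀ hQ]
      have := abs_le.mp hd
      constructor <;> linarith [this.1, this.2]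
  · rintro ⟨⟨h0, h1⟩, Q, ⟨hQ1, hQm⟩, a, _, ha⟩
    refine ⟨h0, h1, Q, hQ1, hQm, ?_⟩
    have hQ : (0 : ℝ) < Q := by exact_mod_cast hQ1
    rw [div_le_iff₀ hQ, le_div_iff₀ hQ] at ha
    refine (round_le ((Q : ℝ) * τ) (a : ℤ)).trans ?_
    rw [abs_le]
    push_cast
    constructor <;> linarith [ha.1, ha.2]

theorem ks_MS : T_MS := by
  intro Qm η hη
  rw [ms_eq]
  constructor
  · apply measurableSet_Icc.inter
    apply Finset.measurableSet_biUnion
    intro Q _
    apply Finset.measurableSet_biUnion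
    intro a _
    exact measurableSet_Icc
  · refine (measure_mono Set.inter_subset_right).trans ?_
    refine (measure_biUnion_finset_le _ _).trans ?_
    have hQ : ∀ Q ∈ Finset.Icc 1 Qm, volume (⋃ a ∈ Finset.range (Q + 1),
        Set.Icc (((a : ℝ) - η) / Q) (((a : ℝ) + η) / Q)) ≤ ENNReal.ofReal (4 * η) := by
      intro Q hQ
      have hQ1 : (1 : ℝ) ≤ Q := by exact_mod_cast (Finset.mem_Icc.mp hQ).1
      refine (measure_biUnion_finset_le _ _).trans ?_
      have : ∀ a ∈ Finset.range (Q + 1), volume (Set.Icc (((a : ℝ) - η) / Q) (((a : ℝ) + η) / Q)) =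
          ENNReal.ofReal (2 * η / Q) := by
        intro a _
        rw [Real.volume_Icc]
        congr 1
        field_simp
        ring
      rw [Finset.sum_congr rfl this, Finset.sum_const, Finset.card_range, nsmul_eq_mul,
        ← ENNReal.ofReal_natCast, ← ENNReal.ofReal_mul (by positivity)]
      apply ENNReal.ofReal_le_ofReal
      rw [mul_div_assoc', div_le_iff₀ (by linarith)]
      push_cast
      nlinarith
    refine (Finset.sum_le_sum hQ).trans ?_
    rw [Finset.sum_const, Nat.card_Icc, nsmul_eq_mul, ← ENNReal.ofReal_natCast,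
      ← ENNReal.ofReal_mul (by positivity)]
    apply ENNReal.ofReal_le_ofReal
    simp only [Nat.add_sub_cancel]
    nlinarith

end Pool.Agent.H48.KS
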