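import Pool.Agent.H98.KS.Targets1

/-!
# One Weyl differencing step (module WS of MP_ff41bc_an)
-/

set_option autoImplicit false

open scoped BigOperators ComplexConjugate
open Finset

noncomputable section

namespace Pool.Agent.H48.KS

open Pool.Agent.H98.KS

theorem ws_ee_sub (x y : ℝ) : ee x * conj (ee y) = ee (x - y) := by
  unfold ee
  rw [← Complex.exp_conj, ← Complex.exp_add]
  congr 1
  simp only [map_mul, Complex.conj_ofReal, Complex.conj_I, map_ofNat]
  push_cast
  ring

theorem ws_ee_norm (x : ℝ) : ‖ee x‖ = 1 := by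
  unfold ee
  have : (2 * Real.pi * x * Complex.I : ℂ) = ((2 * Real.pi * x : ℝ) : ℂ) * Complex.I := by
    push_cast; ring
  rw [this, Complex.norm_exp_ofReal_mul_I]

/-- van der Corput's identity as an inequality -/
theorem ws_sq (f : ℕ → ℂ) (n : ℕ) : ‖∑ x ∈ range n, f x‖ ^ 2 ≤
    2 * ∑ h ∈ range n, ‖∑ x ∈ range (n - h), f (x + h) * conj (f x)‖ := by
  have h0 : ‖∑ x ∈ range n, f x‖ ^ 2 =
      ‖∑ p ∈ range n ×ˢ range n, f p.1 * conj (f p.2)‖ := by
    have : ∑ p ∈ range n ×ˢ range n, f p.1 * conj (f p.2) =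
        (∑ x ∈ range n, f x) * conj (∑ x ∈ range n, f x) := by
      rw [map_sum, Finset.sum_mul_sum, Finset.sum_product]
    rw [this, norm_mul, RCLike.norm_conj, sq]
  rw [h0, ← Finset.sum_filter_add_sum_filter_not (range n ×ˢ range n) (fun p => p.2 ≤ p.1)]
  have e1 : ∑ p ∈ (range n ×ˢ range n).filter (fun p => p.2 ≤ p.1), f p.1 * conj (f p.2) =
      ∑ h ∈ range n, ∑ x ∈ range (n - h), f (x + h) * conj (f x) := by
    rw [Finset.sum_sigma']
    refine Finset.sum_nbij' (fun p => ⟨p.1 - p.2, p.2⟩) (fun q => (q.2 + q.1, q.2)) ?_ ?_ ?_ ?_ ?_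
    · intro p hp
      simp only [mem_filter, mem_product, mem_range] at hp
      simp only [mem_sigma, mem_range]
      omega
    · intro q hq
      simp only [mem_sigma, mem_range] at hq
      simp only [mem_filter, mem_product, mem_range]
      omega
    · intro p hp
      simp only [mem_filter, mem_product, mem_range] at hp
      ext <;> simp only
      omega
    · intro q hq
      simp only [mem_sigma, mem_range] at hq
      have : q.2 + q.1 - q.2 = q.1 := by omega
      rw [this]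
    · intro p hp
      simp only [mem_filter, mem_product, mem_range] at hp
      have : p.2 + (p.1 - p.2) = p.1 := by omega
      rw [this]
  have e2 : ∑ p ∈ (range n ×ˢ range n).filter (fun p => ¬ p.2 ≤ p.1), f p.1 * conj (f p.2) =
      ∑ h ∈ (range n).filter (fun h => 0 < h), ∑ x ∈ range (n - h), f x * conj (f (x + h)) := by
    rw [Finset.sum_sigma']
    refine Finset.sum_nbij' (fun p => ⟨p.2 - p.1, p.1⟩) (fun q => (q.2, q.2 + q.1)) ?_ ?_ ?_ ?_ ?_
    · intro p hp
      simp only [mem_filter, mem_product, mem_range] at hp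
      simp only [mem_sigma, mem_filter, mem_range]
      omega
    · intro q hq
      simp only [mem_sigma, mem_filter, mem_range] at hq
      simp only [mem_filter, mem_product, mem_range]
      omega
    · intro p hp
      simp only [mem_filter, mem_product, mem_range] at hp
      ext <;> simp only
      omega
    · intro q hq
      simp only [mem_sigma, mem_filter, mem_range] at hq
      have : q.2 + q.1 - q.2 = q.1 := by omega
      rw [this]
    · intro p hp
      simp only [mem_filter, mem_product, mem_range] at hp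
      have : p.1 + (p.2 - p.1) = p.2 := by omega
      rw [this]
  rw [e1, e2, two_mul]
  refine (norm_add_le _ _).trans (add_le_add (norm_sum_le _ _) ?_)
  refine (norm_sum_le _ _).trans ?_
  refine le_trans ?_ (Finset.sum_le_sum_of_subset_of_nonneg
    (Finset.filter_subset (fun h => 0 < h) (range n)) fun _ _ _ => norm_nonneg _)
  apply Finset.sum_le_sum
  intro h _
  have : ∑ x ∈ range (n - h), f (x + h) * conj (f x) =
      conj (∑ x ∈ range (n - h), f x * conj (f (x + h))) := by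
    rw [map_sum]
    apply Finset.sum_congr rfl
    intro x _
    rw [map_mul, Complex.conj_conj, mul_comm]
  rw [this, RCLike.norm_conj]

theorem ws_poly (P : Polynomial ℝ) (k : ℕ) (hP : P.natDegree ≤ k + 1) (h : ℝ) :
    (Polynomial.taylor h P - P).natDegree ≤ k ∧
    (Polynomial.taylor h P - P).coeff k = ((k : ℝ) + 1) * P.coeff (k + 1) * h := by
  constructor
  · rw [Polynomial.natDegree_le_iff_coeff_eq_zero]
    intro N hN
    rw [Polynomial.coeff_sub, Polynomial.taylor_coeff]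
    by_cases hN1 : N = k + 1
    · subst hN1
      have hd : (Polynomial.hasseDeriv (k + 1) P).natDegree < 1 := by
        have := Polynomial.natDegree_hasseDeriv_le P (k + 1)
        omega
      rw [Polynomial.eval_eq_sum_range' hd]
      simp [Polynomial.hasseDeriv_coeff]
    · have h1 : P.natDegree < N := by omega
      rw [Polynomial.hasseDeriv_eq_zero_of_lt_natDegree P N h1,
        Polynomial.coeff_eq_zero_of_natDegree_lt h1]
      simp
  · rw [Polynomial.coeff_sub, Polynomial.taylor_coeff]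
    have hd : (Polynomial.hasseDeriv k P).natDegree < 2 := by
      have := Polynomial.natDegree_hasseDeriv_le P k
      omega
    rw [Polynomial.eval_eq_sum_range' hd, Finset.sum_range_succ, Finset.sum_range_one]
    simp only [Polynomial.hasseDeriv_coeff]
    have h1 : ((1 + k).choose k : ℝ) = (k : ℝ) + 1 := by
      rw [add_comm 1 k, Nat.choose_succ_self_right]
      push_cast
      ring
    rw [h1, add_comm 1 k]
    simp

theorem ws_mono (c e A' : ℕ) (t : ℝ) (ht : 1 ≤ t) (hc : c ≤ A') (he : e ≤ A') :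
    (c : ℝ) * t ^ e ≤ A' * t ^ A' := by
  have h1 : (c : ℝ) ≤ A' := by exact_mod_cast hc
  have h2 : t ^ e ≤ t ^ A' := pow_le_pow_right₀ ht he
  have h3 : (0 : ℝ) ≤ t ^ e := by positivity
  exact mul_le_mul h1 h2 h3 (by positivity)

theorem ws_dn_le (x : ℝ) : dn x ≤ 1 / 2 := abs_sub_round x

/-- the counting part: many differences with large sums -/
theorem ws_count (D : ℕ → ℂ) (n : ℕ) (L δ : ℝ) (hL : 1 ≤ L) (hn : (n : ℝ) ≤ L)
    (hD : ∀ h, ‖D h‖ ≤ L) (hsum : (δ * L) ^ 2 ≤ 2 * ∑ h ∈ range n, ‖D h‖) :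
    δ ^ 2 / 4 * L ≤ (((range n).filter fun h => δ ^ 2 / 8 * L ≤ ‖D h‖).card : ℝ) := by
  have h1 : ∀ h ∈ range n, ‖D h‖ ≤ (if δ ^ 2 / 8 * L ≤ ‖D h‖ then L else 0) + δ ^ 2 / 8 * L := by
    intro h _
    have h0 : 0 ≤ δ ^ 2 / 8 * L := by positivity
    split_ifs with hc
    · linarith [hD h]
    · push Not at hc
      linarith
  have h2 := Finset.sum_le_sum h1
  rw [Finset.sum_add_distrib, ← Finset.sum_filter, Finset.sum_const, Finset.sum_const,
    Finset.card_range, nsmul_eq_mul, nsmul_eq_mul] at h2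
  have h3 : (n : ℝ) * (δ ^ 2 / 8 * L) ≤ L * (δ ^ 2 / 8 * L) :=
    mul_le_mul_of_nonneg_right hn (by positivity)
  have h4 : (δ * L) ^ 2 ≤ 2 * ((((range n).filter fun h => δ ^ 2 / 8 * L ≤ ‖D h‖).card : ℝ) * L
      + L * (δ ^ 2 / 8 * L)) := by linarith
  have h5 : (δ ^ 2 / 4 * L) * L ≤
      (((range n).filter fun h => δ ^ 2 / 8 * L ≤ ‖D h‖).card : ℝ) * L := by
    have : 0 ≤ δ ^ 2 * L ^ 2 := by positivity
    nlinarith
  exact le_of_mul_le_mul_right h5 (by linarith)

theorem ks_WS (hRL : T_RL) : T_WS := by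
  intro k A hk hW
  obtain ⟨hA, hW⟩ := hW
  have hK1 : 1 ≤ A * 8 ^ A := Nat.one_le_iff_ne_zero.mpr (by positivity)
  generalize hK1d : A * 8 ^ A = K1 at hK1
  have hM1 : 1 ≤ 4 * K1 := by omega
  generalize hMd : 4 * K1 = M at hM1
  refine ⟨4096 * K1 ^ 2 * M ^ 2 + (64 * M ^ 2) ^ (k + 1) + (8 * A + 8) * (k + 1), ?_, ?_⟩
  · have : 0 < (8 * A + 8) * (k + 1) := by positivity
    omega
  intro P a n L δ hP hL hn hδ hδ1 hS
  have hA'1 : 4096 * K1 ^ 2 * M ^ 2 ≤
      4096 * K1 ^ 2 * M ^ 2 + (64 * M ^ 2) ^ (k + 1) + (8 * A + 8) * (k + 1) := by omega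
  have hA'2 : (64 * M ^ 2) ^ (k + 1) ≤
      4096 * K1 ^ 2 * M ^ 2 + (64 * M ^ 2) ^ (k + 1) + (8 * A + 8) * (k + 1) := by omega
  have hA'3 : (8 * A + 8) * (k + 1) ≤
      4096 * K1 ^ 2 * M ^ 2 + (64 * M ^ 2) ^ (k + 1) + (8 * A + 8) * (k + 1) := by omega
  generalize 4096 * K1 ^ 2 * M ^ 2 + (64 * M ^ 2) ^ (k + 1) + (8 * A + 8) * (k + 1) = A'
    at hA'1 hA'2 hA'3 ⊢
  have hL0 : 0 < L := by linarith
  have ht : 1 ≤ 1 / δ := by rw [le_div_iff₀ hδ]; linarith
  obtain ⟨t, htd⟩ : ∃ t, t = 1 / δ := ⟨_, rfl⟩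
  rw [← htd] at ht ⊢
  have ht0 : 0 < t := by linarith
  have hδt : δ = 1 / t := by rw [htd]; field_simp
  obtain ⟨Qr, hQrd⟩ : ∃ Qr : ℝ, Qr = (A : ℝ) * (1 / (δ ^ 2 / 8)) ^ A := ⟨_, rfl⟩
  have hQr : Qr = (K1 : ℝ) * t ^ (2 * A) := by
    rw [hQrd, ← hK1d, hδt]
    have : 1 / ((1 / t) ^ 2 / 8) = 8 * t ^ 2 := by field_simp
    rw [this, mul_pow, ← pow_mul]
    push_cast
    ring
  have hK1r : (1 : ℝ) ≤ K1 := by exact_mod_cast hK1
  have hMr : (M : ℝ) = 4 * K1 := by rw [← hMd]; push_cast; ring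
  have hQr1 : 1 ≤ Qr := by
    rw [hQr]
    have := one_le_pow₀ ht (n := 2 * A)
    nlinarith
  obtain ⟨d2, hd2⟩ : ∃ d2 : ℝ, d2 = δ ^ 2 / (4 * Qr) := ⟨_, rfl⟩
  have hd2p : 0 < d2 := by rw [hd2]; positivity
  have hd21 : d2 ≤ 1 := by
    rw [hd2, div_le_one (by positivity)]
    nlinarith
  have hd2i : 1 / d2 = (M : ℝ) * t ^ (2 * A + 2) := by
    rw [hd2, hQr, hMr, hδt, pow_add]
    field_simp
  obtain ⟨α, hα⟩ : ∃ α, α = P.coeff (k + 1) := ⟨_, rfl⟩
  obtain ⟨ε, hε⟩ : ∃ ε : ℝ, ε = Qr / L ^ k := ⟨_, rfl⟩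
  have hε0 : 0 ≤ ε := by rw [hε]; positivity
  -- differences
  obtain ⟨D, hD⟩ : ∃ D : ℕ → ℂ, D = fun h => ∑ x ∈ range (n - h),
      ee (P.eval ((a : ℝ) + ((x + h : ℕ) : ℝ))) * conj (ee (P.eval ((a : ℝ) + x))) := ⟨_, rfl⟩
  have hDn : ∀ h, ‖D h‖ ≤ L := by
    intro h
    rw [hD]
    refine (norm_sum_le _ _).trans ?_
    have : ∀ x ∈ range (n - h), ‖ee (P.eval ((a : ℝ) + ((x + h : ℕ) : ℝ))) *
        conj (ee (P.eval ((a : ℝ) + x)))‖ = 1 := by
      intro x _
      rw [norm_mul, RCLike.norm_conj, ws_ee_norm, ws_ee_norm, one_mul]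
    rw [Finset.sum_congr rfl this, Finset.sum_const, Finset.card_range, nsmul_eq_mul, mul_one]
    refine le_trans ?_ hn
    exact_mod_cast Nat.sub_le n h
  have hsq := ws_sq (fun x : ℕ => ee (P.eval ((a : ℝ) + x))) n
  have hsum : (δ * L) ^ 2 ≤ 2 * ∑ h ∈ range n, ‖D h‖ := by
    refine le_trans ?_ (hsq.trans (le_of_eq ?_))
    · exact pow_le_pow_left₀ (by positivity) hS 2
    · rw [hD]
  have hB := ws_count D n L δ hL hn hDn hsum
  have hq : ∀ h ∈ (range n).filter (fun h => δ ^ 2 / 8 * L ≤ ‖D h‖), ∃ q : ℕ, 1 ≤ q ∧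
      (q : ℝ) ≤ Qr ∧ dn (q * ((k.factorial : ℝ) * (((k : ℝ) + 1) * α * h))) ≤ ε := by
    intro h hh
    have hh2 := (Finset.mem_filter.mp hh).2
    obtain ⟨hdeg, hco⟩ := ws_poly P k hP h
    have heq : D h = ∑ x ∈ range (n - h),
        ee ((Polynomial.taylor (h : ℝ) P - P).eval ((a : ℝ) + x)) := by
      rw [hD]
      apply Finset.sum_congr rfl
      intro x _
      rw [ws_ee_sub, Polynomial.eval_sub, Polynomial.taylor_eval]
      congr 3
      push_cast
      ring
    rw [heq] at hh2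
    obtain ⟨q, hq1, hq2, hq3⟩ := hW (Polynomial.taylor (h : ℝ) P - P) a (n - h) L (δ ^ 2 / 8)
      hdeg hL (le_trans (by exact_mod_cast Nat.sub_le n h) hn) (by positivity) (by nlinarith) hh2
    refine ⟨q, hq1, ?_, ?_⟩
    · rw [hQrd]; exact hq2
    · rw [hε, hQrd, hα]
      rw [hco] at hq3
      exact hq3
  choose! q hq1 hq2 hq3 using hq
  -- pigeonhole
  obtain ⟨q0, hq0T, hq0⟩ : ∃ y ∈ Finset.Icc 1 ⌊Qr⌋₊, d2 * L ≤
      ((((range n).filter fun h => δ ^ 2 / 8 * L ≤ ‖D h‖).filter fun h => q h = y).card : ℝ) := by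
    apply Finset.exists_le_card_fiber_of_nsmul_le_card_of_maps_to
    · intro h hh
      rw [Finset.mem_Icc]
      exact ⟨hq1 h hh, Nat.le_floor (hq2 h hh)⟩
    · exact ⟨1, Finset.mem_Icc.mpr ⟨le_refl 1, Nat.le_floor (by simpa using hQr1)⟩⟩
    · refine le_trans ?_ hB
      rw [Nat.card_Icc, nsmul_eq_mul, Nat.add_sub_cancel]
      have h1 : (⌊Qr⌋₊ : ℝ) ≤ Qr := Nat.floor_le (by linarith)
      have h2 : Qr * (d2 * L) = δ ^ 2 / 4 * L := by
        rw [hd2]
        field_simp
      have h3 : 0 ≤ d2 * L := by positivity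
      nlinarith
  have hq0r : (q0 : ℝ) ≤ Qr := by
    have := (Finset.mem_Icc.mp hq0T).2
    exact (Nat.le_floor_iff (by linarith)).mp this
  have hq01 : 1 ≤ q0 := (Finset.mem_Icc.mp hq0T).1
  by_cases hc : ε ≤ d2 / 64 ∧ 64 / d2 ^ 2 ≤ L
  · obtain ⟨q', hq'1, hq'2, hq'3⟩ := hRL L (q0 * ((k.factorial : ℝ) * (((k : ℝ) + 1) * α))) 0 ε d2
      ((((range n).filter fun h => δ ^ 2 / 8 * L ≤ ‖D h‖).filter fun h => q h = q0).map
        Nat.castEmbedding) hL hε0 hd2p hd21 (by
          intro h hh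
          rw [Finset.mem_map] at hh
          obtain ⟨m, hm, rfl⟩ := hh
          have hmn : m < n := Finset.mem_range.mp (Finset.mem_filter.mp (Finset.mem_filter.mp hm).1).1
          simp only [Nat.castEmbedding_apply, Int.cast_natCast, Nat.abs_cast]
          refine le_trans ?_ hn
          exact_mod_cast hmn.le) (by rw [Finset.card_map]; exact hq0) (by
          intro h hh
          rw [Finset.mem_map] at hh
          obtain ⟨m, hm, rfl⟩ := hh
          obtain ⟨hm1, hm2⟩ := Finset.mem_filter.mp hm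
          have := hq3 m hm1
          rw [hm2] at this
          simp only [Nat.castEmbedding_apply, Int.cast_natCast]
          convert this using 2
          ring) hc.1 hc.2
    refine ⟨q' * q0, ?_, ?_, ?_⟩
    · exact Nat.one_le_iff_ne_zero.mpr (by positivity)
    · push_cast
      have h1 : (q' : ℝ) * q0 ≤ 4 / d2 * Qr :=
        mul_le_mul hq'2 hq0r (by positivity) (by positivity)
      have h2 : 4 / d2 * Qr = ((4 * M * K1 : ℕ) : ℝ) * t ^ (4 * A + 2) := by
        have : 4 / d2 = 4 * (1 / d2) := by ring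
        rw [this, hd2i, hQr]
        push_cast
        ring
      rw [h2] at h1
      refine h1.trans (ws_mono _ _ _ t ht ?_ ?_)
      · refine le_trans ?_ hA'1
        have h5 : K1 ≤ K1 ^ 2 := by nlinarith
        have h6 : M ≤ M ^ 2 := by nlinarith
        calc 4 * M * K1 ≤ 4 * M ^ 2 * K1 ^ 2 := by gcongr
          _ ≤ 4096 * K1 ^ 2 * M ^ 2 := by nlinarith [Nat.zero_le (K1 ^ 2 * M ^ 2)]
      · refine le_trans ?_ hA'3
        nlinarith
    · have h1 : dn (((q' * q0 : ℕ) : ℝ) * (((k + 1).factorial : ℝ) * P.coeff (k + 1))) ≤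
          32 * ε / (d2 ^ 2 * L) := by
        convert hq'3 using 2
        rw [Nat.factorial_succ, hα]
        push_cast
        ring
      refine h1.trans ?_
      have h2 : 32 * ε / (d2 ^ 2 * L) =
          ((32 * K1 * M ^ 2 : ℕ) : ℝ) * t ^ (6 * A + 4) / L ^ (k + 1) := by
        have h3 : 32 * ε / (d2 ^ 2 * L) = 32 * Qr * (1 / d2) ^ 2 / L ^ (k + 1) := by
          rw [hε, pow_succ L k]
          field_simp
        rw [h3, hd2i, hQr]
        push_cast
        ring
      rw [h2]
      apply div_le_div_of_nonneg_right _ (by positivity)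
      apply ws_mono _ _ _ t ht
      · refine le_trans ?_ hA'1
        have h5 : K1 ≤ K1 ^ 2 := by nlinarith
        calc 32 * K1 * M ^ 2 ≤ 32 * K1 ^ 2 * M ^ 2 := by gcongr
          _ ≤ 4096 * K1 ^ 2 * M ^ 2 := by gcongr; norm_num
      · refine le_trans ?_ hA'3
        nlinarith
  · refine ⟨1, le_refl 1, ?_, ?_⟩
    · have := ws_mono 1 0 A' t ht (by
        refine le_trans ?_ hA'3
        nlinarith) (Nat.zero_le _)
      simpa using this
    · refine (ws_dn_le _).trans ?_
      have hLk : L ^ (k + 1) ≤ A' * t ^ A' := by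
        by_cases hc1 : ε ≤ d2 / 64
        · have hc2 : L < 64 / d2 ^ 2 := by
            by_contra hcon
            push Not at hcon
            exact hc ⟨hc1, hcon⟩
          have h1 : 64 / d2 ^ 2 = ((64 * M ^ 2 : ℕ) : ℝ) * t ^ (4 * A + 4) := by
            have : 64 / d2 ^ 2 = 64 * (1 / d2) ^ 2 := by
              rw [one_div, inv_pow]
              rfl
            rw [this, hd2i]
            push_cast
            ring
          have h2 : L ^ (k + 1) ≤ (((64 * M ^ 2 : ℕ) : ℝ) * t ^ (4 * A + 4)) ^ (k + 1) := by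
            rw [← h1]
            exact pow_le_pow_left₀ hL0.le hc2.le _
          have h3 : (((64 * M ^ 2 : ℕ) : ℝ) * t ^ (4 * A + 4)) ^ (k + 1) =
              (((64 * M ^ 2) ^ (k + 1) : ℕ) : ℝ) * t ^ ((4 * A + 4) * (k + 1)) := by
            rw [mul_pow, ← pow_mul]
            push_cast
            ring
          rw [h3] at h2
          refine h2.trans (ws_mono _ _ _ t ht hA'2 ?_)
          refine le_trans ?_ hA'3
          gcongr <;> norm_num
        · push Not at hc1
          have h1 : L ^ k ≤ ((64 * K1 * M : ℕ) : ℝ) * t ^ (4 * A + 2) := by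
            have h2 : d2 * L ^ k < 64 * Qr := by
              rw [hε, lt_div_iff₀ (by positivity)] at hc1
              linarith
            have h3 : L ^ k ≤ 64 * Qr * (1 / d2) := by
              rw [mul_one_div, le_div_iff₀ hd2p]
              linarith
            refine h3.trans (le_of_eq ?_)
            rw [hd2i, hQr]
            push_cast
            ring
          have h4 : L ^ (k + 1) ≤ (L ^ k) ^ 2 := by
            rw [← pow_mul]
            exact pow_le_pow_right₀ hL (by omega)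
          have h5 : (L ^ k) ^ 2 ≤ (((64 * K1 * M : ℕ) : ℝ) * t ^ (4 * A + 2)) ^ 2 :=
            pow_le_pow_left₀ (by positivity) h1 2
          have h6 : (((64 * K1 * M : ℕ) : ℝ) * t ^ (4 * A + 2)) ^ 2 =
              ((4096 * K1 ^ 2 * M ^ 2 : ℕ) : ℝ) * t ^ (8 * A + 4) := by
            push_cast
            ring
          rw [h6] at h5
          refine h4.trans (h5.trans (ws_mono _ _ _ t ht hA'1 ?_))
          refine le_trans ?_ hA'3
          nlinarith
      have hLp : 0 < L ^ (k + 1) := by positivity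
      rw [le_div_iff₀ hLp]
      linarith

end Pool.Agent.H48.KS
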